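import Pool.Agent.R592.Gp.Om

/-!
# Slalom width reduction (OM-3, MP_c06a36_lc)
-/

set_option autoImplicit false

open Set Cardinal MeasureTheory Filter Pool.Agent.R592.Om

namespace R961.OM

/-- the monotone majorant -/
def W (w : ℕ → ℕ) (j : ℕ) : ℕ := ∑ i ∈ Finset.range (j + 1), w i

theorem le_W (w : ℕ → ℕ) (j : ℕ) : w j ≤ W w j :=
  Finset.single_le_sum (f := w) (fun _ _ => Nat.zero_le _) (Finset.mem_range.2 (Nat.lt_succ_self j))

/-- the index of the block of `n` -/
def J (w : ℕ → ℕ) (n : ℕ) : ℕ := Nat.findGreatest (fun j => W w j ≤ n) n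

/-- a bound of the block with index `j` -/
def b (w : ℕ → ℕ) (j : ℕ) : ℕ := W w (j + 1) + (j + 1)

theorem le_b (w : ℕ → ℕ) (n : ℕ) : n ≤ b w (J w n) := by
  by_contra hc
  push Not at hc
  have h1 : W w (J w n + 1) ≤ n := by unfold b at hc; omega
  have h2 : J w n + 1 ≤ n := by unfold b at hc; omega
  have h3 : J w n + 1 ≤ J w n := Nat.le_findGreatest h2 h1
  omega

theorem W_J (w : ℕ → ℕ) (n : ℕ) (h : W w 0 ≤ n) : W w (J w n) ≤ n :=
  Nat.findGreatest_spec (P := fun j => W w j ≤ n) (Nat.zero_le n) h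

theorem width (w : ℕ → ℕ) : ∃ Φ : (ℕ → ℕ) → ℕ → ℕ, ∀ H, Loc w (Φ '' H) → Loc id H := by
  classical
  refine ⟨fun h j => Encodable.encode ((List.range (b w j + 1)).map h), ?_⟩
  rintro H ⟨S, hS, hH⟩
  refine ⟨fun n => if W w 0 ≤ n then (S (J w n)).image
    (fun s => (((Encodable.decode s : Option (List ℕ)).getD []).getD n 0)) else ∅, ?_, ?_⟩
  · intro n
    dsimp only
    split_ifs with h
    · exact (Finset.card_image_le.trans (hS _)).trans ((le_W w _).trans (W_J w n h))
    · simp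
  · intro h hh
    obtain ⟨j0, hj0⟩ := eventually_atTop.1 (hH _ (mem_image_of_mem _ hh))
    filter_upwards [eventually_ge_atTop (W w j0 + j0), eventually_ge_atTop (W w 0)] with n h1 h2
    rw [if_pos h2, Finset.mem_image]
    have h3 : j0 ≤ J w n := Nat.le_findGreatest (by omega) (by omega)
    refine ⟨_, hj0 _ h3, ?_⟩
    have h4 : n < b w (J w n) + 1 := Nat.lt_succ_of_le (le_b w n)
    simp [Encodable.encodek, List.getD_eq_getElem?_getD, h4]

end R961.OM
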